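import Mathlib
import Pool.Agent.R818.GY.Top

/-!
# A first-countable coset space modulo an admissible subgroup need not be metrizable
-/

set_option autoImplicit false

open Set Filter Topology

namespace Pool.Agent.Results.MP_25970d_gt.NotMetrizable

/-- A gyrogroup: a binary operation with a unique two-sided identity, unique two-sided inverses
and automorphisms `gyr x y` satisfying the left gyroassociative law and the left loop property. -/
structure Gyrogroup (G : Type) where
  /-- the operation -/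
  add : G → G → G
  /-- the identity -/
  zero : G
  /-- the inverse -/
  neg : G → G
  /-- the gyrations -/
  gyr : G → G → (G ≃ G)
  zero_add : ∀ x, add zero x = x
  add_zero : ∀ x, add x zero = x
  zero_unique : ∀ e, (∀ x, add e x = x ∧ add x e = x) → e = zero
  neg_add : ∀ x, add (neg x) x = zero
  add_neg : ∀ x, add x (neg x) = zero
  neg_unique : ∀ x y, add x y = zero → add y x = zero → y = neg x
  gyr_add : ∀ x y a b, gyr x y (add a b) = add (gyr x y a) (gyr x y b)
  gyr_assoc : ∀ x y z, add x (add y z) = add (add x y) (gyr x y z)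
  gyr_loop : ∀ x y, gyr (add x y) y = gyr x y

variable {G : Type} [TopologicalSpace G]

/-- `G` is a strongly topological gyrogroup and `𝒰` is a neighbourhood base at the identity which
consists of symmetric gyration-invariant sets. -/
structure StronglyTopological (S : Gyrogroup G) (𝒰 : Set (Set G)) : Prop where
  continuous_add : Continuous fun q : G × G => S.add q.1 q.2
  continuous_neg : Continuous S.neg
  mem_nhds : ∀ U ∈ 𝒰, U ∈ 𝓝 S.zero
  base : ∀ V ∈ 𝓝 S.zero, ∃ U ∈ 𝒰, U ⊆ V
  symmetric : ∀ U ∈ 𝒰, S.neg '' U = U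
  gyr_invariant : ∀ U ∈ 𝒰, ∀ x y, S.gyr x y '' U = U

/-- `H` is an admissible subgyrogroup generated from `𝒰`. -/
structure Admissible (S : Gyrogroup G) (𝒰 : Set (Set G)) (H : Set G) : Prop where
  zero_mem : S.zero ∈ H
  add_mem : ∀ x ∈ H, ∀ y ∈ H, S.add x y ∈ H
  neg_mem : ∀ x ∈ H, S.neg x ∈ H
  generated : ∃ U : ℕ → Set G, (∀ n, U n ∈ 𝒰 ∧ IsOpen (U n)) ∧
    (∀ n, ∀ a ∈ U (n + 1), ∀ b ∈ U (n + 1), ∀ c ∈ U (n + 1), S.add a (S.add b c) ∈ U n) ∧
    H = ⋂ n, U n

/-- The coset `a ⊕ H`. -/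
def coset (S : Gyrogroup G) (H : Set G) (a : G) : Set G := {x | ∃ h ∈ H, x = S.add a h}

/-- The space `G / H` of the cosets `a ⊕ H` with the quotient topology. -/
abbrev CosetSpace (S : Gyrogroup G) (H : Set G) : Type := Quotient (Setoid.ker (coset S H))

/-- `Y` has an `ω^ω`-base. -/
def HasOmegaOmegaBase (Y : Type) [TopologicalSpace Y] : Prop :=
  ∀ y : Y, ∃ U : (ℕ → ℕ) → Set Y, (∀ α, U α ∈ 𝓝 y) ∧ (∀ V ∈ 𝓝 y, ∃ α, U α ⊆ V) ∧
    ∀ α β, α ≤ β → U β ⊆ U α

open Pool.Agent.R818.GY

/-- A group as a gyrogroup. -/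
def ofGroup (K : Type) [Group K] : Gyrogroup K where
  add := fun a b => a * b
  zero := 1
  neg := fun a => a⁻¹
  gyr := fun _ _ => Equiv.refl K
  zero_add := one_mul
  add_zero := mul_one
  zero_unique := fun e he => by simpa using (he 1).1
  neg_add := inv_mul_cancel
  add_neg := mul_inv_cancel
  neg_unique := fun x y h _ => eq_inv_of_mul_eq_one_right h
  gyr_add := fun _ _ _ _ => rfl
  gyr_assoc := fun x y z => (mul_assoc x y z).symm
  gyr_loop := fun _ _ => rfl

/-- The stabiliser of the zero sequence. -/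
def HH : Set GG := {g | orb g = (fun _ => 0 : X)}

theorem orb_mul {a h : GG} (hh : h ∈ HH) : orb (a * h) = orb a := by
  show a.1 (h.1 (fun _ => 0)) = a.1 (fun _ => 0)
  rw [show h.1 (fun _ => 0 : X) = (fun _ => 0 : X) from hh]

theorem mem_coset_iff (a x : GG) : x ∈ coset (ofGroup GG) HH a ↔ orb x = orb a := by
  constructor
  · rintro ⟨h, hh, rfl⟩
    exact orb_mul hh
  · intro h
    refine ⟨a⁻¹ * x, ?_, ?_⟩
    · show (a⁻¹).1 (x.1 (fun _ => 0)) = (fun _ => 0 : X)
      rw [show x.1 (fun _ => 0 : X) = a.1 (fun _ => 0 : X) from h]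
      show a.1⁻¹ (a.1 (fun _ => 0)) = (fun _ => 0 : X)
      simp
    · show x = a * (a⁻¹ * x)
      rw [mul_inv_cancel_left]

theorem ker_eq : Setoid.ker (coset (ofGroup GG) HH) = Setoid.ker orb := by
  refine Setoid.ext fun a b => ?_
  rw [Setoid.ker_def, Setoid.ker_def]
  constructor
  · intro h
    have : a ∈ coset (ofGroup GG) HH b := by
      rw [← h]; exact (mem_coset_iff a a).2 rfl
    exact (mem_coset_iff b a).1 this
  · intro h
    ext x
    rw [mem_coset_iff, mem_coset_iff, h]

theorem strongly : StronglyTopological (ofGroup GG)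
    {U : Set GG | IsOpen U ∧ (1 : GG) ∈ U ∧ (fun a : GG => a⁻¹) '' U = U} where
  continuous_add := continuous_mul
  continuous_neg := continuous_inv
  mem_nhds := fun U hU => hU.1.mem_nhds hU.2.1
  base := by
    intro V hV
    obtain ⟨O, hOV, hO, h1⟩ := mem_nhds_iff.1 hV
    refine ⟨O ∩ O⁻¹, ⟨hO.inter hO.inv, ⟨h1, by
      rw [Set.mem_inv, inv_one]; exact h1⟩, ?_⟩, fun x hx => hOV hx.1⟩
    rw [Set.image_inv_eq_inv, Set.inter_inv, inv_inv, Set.inter_comm]
  symmetric := fun U hU => hU.2.2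
  gyr_invariant := fun U _ _ _ => by
    show (fun z => z) '' U = U
    rw [Set.image_id']

/-- The open subgroups whose intersection is the stabiliser. -/
def UU (n : ℕ) : Set GG := {g | Agr n (orb g) (fun _ => 0)}

theorem UU_mul {n : ℕ} {a b : GG} (ha : a ∈ UU n) (hb : b ∈ UU n) : a * b ∈ UU n := by
  have h1 : Agr n (a.1 (b.1 (fun _ => 0))) (a.1 (fun _ => 0)) := (a.2.1 _ _ _).1 hb
  exact h1.trans ha

theorem UU_inv {n : ℕ} {a : GG} (ha : a ∈ UU n) : a⁻¹ ∈ UU n := by
  have h1 : Agr n ((a⁻¹).1 (a.1 (fun _ => 0))) ((a⁻¹).1 (fun _ => 0)) := ((a⁻¹).2.1 _ _ _).1 ha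
  have h2 : (a⁻¹).1 (a.1 (fun _ => 0)) = (fun _ => 0 : X) := by
    show a.1⁻¹ (a.1 (fun _ => 0)) = (fun _ => 0 : X)
    simp
  rw [h2] at h1
  exact h1.symm

theorem UU_open (n : ℕ) : IsOpen (UU n) := by
  have h : UU n = orb ⁻¹' {x : XT | Agr n x (fun _ => 0)} := rfl
  rw [h]
  refine IsOpen.preimage continuous_orb ?_
  rw [R818.GY.isOpen_iff]
  intro x hx
  exact ⟨n, fun z hz => (agr_of_mem hz).trans hx⟩

theorem UU_anti (n : ℕ) : UU (n + 1) ⊆ UU n := fun _ hg => Agr.mono hg (Nat.le_succ n)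

theorem admissible : Admissible (ofGroup GG)
    {U : Set GG | IsOpen U ∧ (1 : GG) ∈ U ∧ (fun a : GG => a⁻¹) '' U = U} HH where
  zero_mem := rfl
  add_mem := fun x hx y hy => (orb_mul hy).trans hx
  neg_mem := by
    intro x hx
    show x.1⁻¹ (fun _ => 0) = (fun _ => 0 : X)
    have h1 : x.1 (fun _ => 0 : X) = (fun _ => 0 : X) := hx
    have h2 : x.1⁻¹ (x.1 (fun _ => 0 : X)) = (fun _ => 0 : X) := by simp
    rwa [h1] at h2
  generated := by
    refine ⟨UU, fun n => ⟨⟨UU_open n, Agr.refl _ _, ?_⟩, UU_open n⟩, ?_, ?_⟩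
    · ext g
      constructor
      · rintro ⟨a, ha, rfl⟩
        exact UU_inv ha
      · intro hg
        exact ⟨g⁻¹, UU_inv hg, inv_inv g⟩
    · intro n a ha b hb c hc
      exact UU_anti n (UU_mul ha (UU_mul hb hc))
    · ext g
      rw [mem_iInter]
      constructor
      · intro hg n
        show Agr n (orb g) (fun _ => 0)
        rw [show orb g = (fun _ => 0 : X) from hg]
        exact Agr.refl _ _
      · intro hg
        exact funext fun i => hg (i + 1) i (Nat.lt_succ_self i)

theorem hasOmegaOmegaBase_of_firstCountable (Y : Type) [TopologicalSpace Y]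
    [FirstCountableTopology Y] : HasOmegaOmegaBase Y := by
  intro y
  obtain ⟨V, hV⟩ := (𝓝 y).exists_antitone_basis
  refine ⟨fun α => V (α 0), fun α => hV.toHasBasis.mem_of_mem trivial, fun s hs => ?_,
    fun α β h => hV.antitone (h 0)⟩
  obtain ⟨n, -, hn⟩ := hV.toHasBasis.mem_iff.1 hs
  exact ⟨fun _ => n, hn⟩

theorem t2_XT : T2Space XT := by
  refine ⟨fun x y hxy => ?_⟩
  obtain ⟨k, -, hk⟩ := exists_diff (x := (y : X)) (z := (x : X)) hxy
  refine ⟨WT (k + 1) x, WT (k + 1) y, isOpen_WT _ _, isOpen_WT _ _, self_mem _ _, self_mem _ _, ?_⟩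
  rw [Set.disjoint_left]
  intro z hz hz'
  have h1 := agr_of_mem (show (z : X) ∈ W (k + 1) (x : X) from hz) k (Nat.lt_succ_self k)
  have h2 := agr_of_mem (show (z : X) ∈ W (k + 1) (y : X) from hz') k (Nat.lt_succ_self k)
  exact hk (h1.symm.trans h2)

/-- There are a Hausdorff strongly topological gyrogroup `G` (in fact a topological group, with
trivial gyrations), a neighbourhood base `𝒰` at the identity of symmetric gyration-invariant sets
and an admissible subgyrogroup `H` generated from `𝒰` such that the coset space `G / H` is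
Hausdorff, Fréchet-Urysohn (even first-countable), has an `ω^ω`-base, but is not metrizable. -/
theorem result : ∃ (G : Type) (_ : TopologicalSpace G) (_ : T2Space G) (S : Gyrogroup G)
    (𝒰 : Set (Set G)) (H : Set G),
    StronglyTopological S 𝒰 ∧ Admissible S 𝒰 H ∧
    FrechetUrysohnSpace (CosetSpace S H) ∧ HasOmegaOmegaBase (CosetSpace S H) ∧
    ¬ TopologicalSpace.MetrizableSpace (CosetSpace S H) ∧
    FirstCountableTopology (CosetSpace S H) ∧ T2Space (CosetSpace S H) ∧
    ∀ x y z, S.gyr x y z = z := by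
  refine ⟨GG, inferInstance, inferInstance, ofGroup GG, _, HH, strongly, admissible, ?_⟩
  have e : CosetSpace (ofGroup GG) HH ≃ₜ XT := by
    unfold CosetSpace
    rw [ker_eq]
    exact quotHomeo
  haveI hfc : FirstCountableTopology (CosetSpace (ofGroup GG) HH) :=
    e.isInducing.firstCountableTopology
  haveI : T2Space XT := t2_XT
  refine ⟨inferInstance, hasOmegaOmegaBase_of_firstCountable _, ?_, hfc, e.symm.t2Space,
    fun _ _ _ => rfl⟩
  intro h
  exact not_metrizable (e.symm.isEmbedding.metrizableSpace)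

end Pool.Agent.Results.MP_25970d_gt.NotMetrizable
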